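import Pool.Agent.H19.KSJ.SMS1

/-!
# Surjectivity of the restriction map: isolation for one symbol at one point (row ISY)
-/

open CategoryTheory TopologicalSpace Opposite AlgebraicGeometry Limits
open Pool.Agent.H62.MK Pool.Agent.H84.KEW Pool.Agent.H19.KN
open Pool.Agent.H17.KW (kap Pts entry column dFam)
open Pool.Agent.H12.KG (Sp GenSp kA stA rho)
open Pool.Agent.H15.KEW (rho_stA genSp_finite)
open Pool.Agent.H19.KSJ (single_mem_inst genSp_of_coheight coheight_of_dl coheight_of_pts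
  coheight_lt_top')

universe u

namespace Pool.Agent.H74.KSJ

open Pool.Agent.H12.KSJ

/-- A difference of two symbols, exchanging the entries one by one. -/
theorem tele_mem {F : Type u} [Field F] {m : ℕ} {B : Type u} [AddCommGroup B]
    (φ : MilnorK F (m + 1) →+ B) (S : AddSubgroup B) (a b : Fin (m + 1) → Fˣ)
    (h : ∀ (c : Fin (m + 1) → Fˣ) (i : Fin (m + 1)), c i = a i / b i →
      (∀ j, j ≠ i → c j = a j ∨ c j = b j) →
      φ (cup (c i) (sym fun j => c (i.succAbove j))) ∈ S) : φ (sym a - sym b) ∈ S := by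
  have hT := ok_TELE F (m + 1) a b
  have hle : AddSubgroup.closure {z : MilnorK F (m + 1) |
      ∃ (c : Fin (m + 1) → Fˣ) (i : Fin (m + 1)),
      z = sym c ∧ c i = a i / b i ∧ ∀ j, j ≠ i → c j = a j ∨ c j = b j} ≤ S.comap φ := by
    rw [AddSubgroup.closure_le]
    rintro z ⟨c, i, rfl, hci, hcj⟩
    show φ (sym c) ∈ S
    rcases ok_SLOT F m c i with e1 | e1
    · rw [e1]
      exact h c i hci hcj
    · rw [e1, map_neg]
      exact neg_mem (h c i hci hcj)
  exact hle hT

/-- A symbol as a product with its first entry. -/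
theorem head_mem {F : Type u} [Field F] {m : ℕ} {B : Type u} [AddCommGroup B]
    (φ : MilnorK F (m + 1) →+ B) (S : AddSubgroup B) (a : Fin (m + 1) → Fˣ)
    (h : φ (cup (a 0) (sym fun j : Fin m => a j.succ)) ∈ S) : φ (sym a) ∈ S := by
  rw [cup_sym] at h
  have e : (Fin.cons (a 0) (fun j : Fin m => a j.succ) : Fin (m + 1) → Fˣ) = a :=
    Fin.cons_self_tail a
  rwa [e] at h

variable {X : Scheme.{u}} {A : Type u} [CommRing A] (f : X ⟶ Spec (CommRingCat.of A)) (π : A)

/-- The special points one level below a horizontal point are generic points of the special fibre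
of its closure. -/
theorem genSp_of_dl (e m : ℕ) (hdim : ∀ x : X, Order.coheight x ≤ (e + 2 : ℕ∞))
    (w : HPts f π (e + 1) (m + 1)) {y' : X} (h' : w.1.1 ⤳ y') (hy' : Sp f π y')
    (hdl : dl (X := X) (e + 1) y' = m + 1) : GenSp f π w.1.1 y' := by
  have hdim' : ∀ x : X, Order.coheight x ≤ ((e + 2 : ℕ) : ℕ∞) := fun x => by
    exact_mod_cast hdim x
  refine genSp_of_coheight f π w.2 h' hy' (coheight_lt_top' hdim' y') ?_
  have h1 := coheight_of_dl hdim' y' hdl
  obtain ⟨c, hc1, hc2⟩ := coheight_of_pts w.1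
  have h2 := coheight_lt_top' hdim' y'
  obtain ⟨c', hc'⟩ := ENat.ne_top_iff_exists.1 h2.ne
  rw [← hc'] at h1 ⊢
  rw [hc1]
  have h3 : c' + (m + 1) = e + 2 := by exact_mod_cast h1
  have h4 : c' ≤ c + 1 := by omega
  exact_mod_cast h4

/-- A uniform bound for the small symbols at the points over a point `w`. -/
theorem bound [IsNoetherian X] (e m : ℕ) (hdim : ∀ x : X, Order.coheight x ≤ (e + 2 : ℕ∞))
    (R : ∀ s, X.toTopCat → AddSubgroup (Π₀ v : HPts f π (e + 1) s, AH f π (e + 1) s v))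
    (hsm : SMs f π (e + 1) R m) [DecidableEq (HPts f π (e + 1) (m + 1))]
    (w : HPts f π (e + 1) (m + 1)) (a : Fin m → (X.residueField w.1.1)ˣ) :
    ∃ M : ℕ, ∀ M' : ℕ, M ≤ M' → ∀ (y' : X) (h' : w.1.1 ⤳ y'), Sp f π y' →
      dl (X := X) (e + 1) y' = m + 1 →
      ∀ (u : (X.residueField w.1.1)ˣ) (g' : Fin m → (X.residueField w.1.1)ˣ),
      (∃ c : X.presheaf.stalk y', (u : X.residueField w.1.1) =
        1 + kA f w.1.1 π ^ M' * rho h' c) →
      (∀ i, ∃ c : X.presheaf.stalk y',
        (g' i : X.residueField w.1.1) = a i * (1 + kA f w.1.1 π ^ M' * rho h' c)) →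
      DFinsupp.single (β := fun v : HPts f π (e + 1) (m + 1) => AH f π (e + 1) (m + 1) v) w
        (cup u (sym g')) ∈ R (m + 1) y' := by
  have key : ∀ y' : X, ∃ M : ℕ, ∀ (h' : w.1.1 ⤳ y'), Sp f π y' →
      dl (X := X) (e + 1) y' = m + 1 →
      ∀ (u : (X.residueField w.1.1)ˣ) (g' : Fin m → (X.residueField w.1.1)ˣ),
      (∃ c : X.presheaf.stalk y', (u : X.residueField w.1.1) = 1 + kA f w.1.1 π ^ M * rho h' c) →
      (∀ i, ∃ c : X.presheaf.stalk y',
        (g' i : X.residueField w.1.1) = a i * (1 + kA f w.1.1 π ^ M * rho h' c)) →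
      DFinsupp.single (β := fun v : HPts f π (e + 1) (m + 1) => AH f π (e + 1) (m + 1) v) w
        (cup u (sym g')) ∈ R (m + 1) y' := by
    intro y'
    by_cases h : w.1.1 ⤳ y' ∧ Sp f π y' ∧ dl (X := X) (e + 1) y' = m + 1
    · obtain ⟨M, hM⟩ := hsm w y' h.1 h.2.1 h.2.2 a
      refine ⟨M, fun h' _ _ u g' hu hg' => ?_⟩
      have h3 := hM u g' hu hg'
      exact single_mem_inst _ h3
    · exact ⟨0, fun h' h2 h3 => absurd ⟨h', h2, h3⟩ h⟩
  choose N hN using key
  obtain ⟨B, hB⟩ := ((genSp_finite f π w.1.1).image N).bddAbove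
  refine ⟨B, ?_⟩
  intro M' hM' y' h' hy' hdl u g' hu hg'
  have hgen : GenSp f π w.1.1 y' := genSp_of_dl f π e m hdim w h' hy' hdl
  have hle : N y' ≤ M' := (hB ⟨y', hgen, rfl⟩).trans hM'
  have hpw : ∀ c : X.presheaf.stalk y', kA f w.1.1 π ^ M' * rho h' c =
      kA f w.1.1 π ^ N y' * rho h' (stA f y' π ^ (M' - N y') * c) := by
    intro c
    rw [map_mul, map_pow, rho_stA, ← mul_assoc, ← pow_add]
    congr 2
    omega
  refine hN y' h' hy' hdl u g' ?_ fun i => ?_
  · obtain ⟨c, hc⟩ := hu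
    exact ⟨_, by rw [hc, hpw]⟩
  · obtain ⟨c, hc⟩ := hg' i
    exact ⟨_, by rw [hc, hpw]⟩

theorem pf_ISY : T_ISY.{u} := by
  intro A _ X _ f π e m hm hdim hW R hsm hdec v y hvy hy hdy g
  classical
  -- the exponent
  have hb1 : ∀ i : Fin (m + 1), _ := fun i =>
    bound f π e m hdim R hsm v (fun j => g (i.succAbove j))
  choose N1 hN1 using hb1
  obtain ⟨N0, hN0⟩ := bound f π e m hdim R hsm v (fun _ => (1 : (X.residueField v.1.1)ˣ))
  set M : ℕ := N0 + (∑ i, N1 i) + 1 with hM
  have hM1 : ∀ i, N1 i ≤ M := fun i => by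
    have := Finset.single_le_sum (f := N1) (fun _ _ => Nat.zero_le _) (Finset.mem_univ i)
    omega
  have hM0 : N0 ≤ M := by omega
  -- weak approximation
  have hap : ∀ i : Fin (m + 1), ∃ h : X.residueField v.1.1, h ≠ 0 ∧ ∀ (y' : X) (hy : v.1.1 ⤳ y'),
      GenSp f π v.1.1 y' → ∃ s : X.presheaf.stalk y',
        h = (if y' = y then (g i : X.residueField v.1.1) else 1) *
          (1 + kA f v.1.1 π ^ M * rho hy s) := by
    intro i
    refine hW M (by omega) v.1.1 v.2 (fun z => if z = y then (g i : X.residueField v.1.1) else 1) ?_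
    intro z
    by_cases hz : z = y
    · rw [if_pos hz]
      exact (g i).ne_zero
    · rw [if_neg hz]
      exact one_ne_zero
  choose h0 hne happ using hap
  refine ⟨fun i => Units.mk0 (h0 i) (hne i), ?_, ?_⟩
  · -- at the point `y`
    have hgen : GenSp f π v.1.1 y := genSp_of_dl f π e m hdim v hvy hy hdy
    have hs : ∀ i, ∃ s : X.presheaf.stalk y,
        h0 i = (g i : X.residueField v.1.1) * (1 + kA f v.1.1 π ^ M * rho hvy s) := by
      intro i
      obtain ⟨s, hs⟩ := happ i y hvy hgen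
      rw [if_pos rfl] at hs
      exact ⟨s, hs⟩
    refine tele_mem (F := X.residueField v.1.1) (DFinsupp.singleAddHom
      (fun v : HPts f π (e + 1) (m + 1) => AH f π (e + 1) (m + 1) v) v) (R (m + 1) y)
      (fun i => Units.mk0 (h0 i) (hne i)) g (fun c i hci hcj => ?_)
    refine hN1 i M (hM1 i) y hvy hy hdy (c i) (fun j => c (i.succAbove j)) ?_ ?_
    · obtain ⟨s, hs'⟩ := hs i
      refine ⟨s, ?_⟩
      rw [hci, Units.val_div_eq_div_val]
      show h0 i / (g i : X.residueField v.1.1) = _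
      rw [hs', mul_comm, mul_div_assoc, div_self (g i).ne_zero, mul_one]
    · intro j
      rcases hcj (i.succAbove j) (Fin.succAbove_ne i j) with e1 | e1
      · obtain ⟨s, hs'⟩ := hs (i.succAbove j)
        refine ⟨s, ?_⟩
        rw [e1]
        exact hs'
      · refine ⟨0, ?_⟩
        rw [e1, map_zero, mul_zero, add_zero, mul_one]
  · -- at the other points
    intro y' hvy' hy' hdy' hne'
    have hgen : GenSp f π v.1.1 y' := genSp_of_dl f π e m hdim v hvy' hy' hdy'
    have hs : ∀ i, ∃ s : X.presheaf.stalk y',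
        h0 i = 1 + kA f v.1.1 π ^ M * rho hvy' s := by
      intro i
      obtain ⟨s, hs⟩ := happ i y' hvy' hgen
      rw [if_neg hne', one_mul] at hs
      exact ⟨s, hs⟩
    refine head_mem (F := X.residueField v.1.1) (DFinsupp.singleAddHom
      (fun v : HPts f π (e + 1) (m + 1) => AH f π (e + 1) (m + 1) v) v) (R (m + 1) y')
      (fun i => Units.mk0 (h0 i) (hne i)) ?_
    refine hN0 M hM0 y' hvy' hy' hdy' (Units.mk0 (h0 0) (hne 0))
      (fun j : Fin m => Units.mk0 (h0 j.succ) (hne j.succ)) (hs 0) (fun i => ?_)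
    obtain ⟨s, hs'⟩ := hs i.succ
    refine ⟨s, ?_⟩
    rw [Units.val_one, one_mul]
    exact hs'

end Pool.Agent.H74.KSJ
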